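import Pool.Agent.Q128.FatParam3

/-!
# Every parameter is attained by a graph with FAT chromatic number exactly `k`

The definitions (`count`, `deg`, `IsFAT`, `fatChromaticNumber`) are in `Pool.Agent.Q128.FatDefs`.
-/

set_option autoImplicit false

namespace Pool.Agent.Results.MP_2d49c6_co.Prescribed

open SimpleGraph Q128.Fat

theorem fatChromaticNumber_eq {V : Type} {G : SimpleGraph V} {k : ℕ} {c : V → Fin k} {α : ℝ}
    (h : IsFAT G c α) (hub : ∀ (m : ℕ) (c : V → Fin m) (α : ℝ), IsFAT G c α → m ≤ k) :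
    fatChromaticNumber G = k := by
  have hb : BddAbove {k | ∃ c : V → Fin k, ∃ α : ℝ, IsFAT G c α} :=
    ⟨k, by rintro m ⟨c, α, h⟩; exact hub m c α h⟩
  apply le_antisymm
  · exact csSup_le ⟨k, c, α, h⟩ (by rintro m ⟨c, α, h⟩; exact hub m c α h)
  · exact le_csSup hb ⟨c, α, h⟩

/-- the complete graph, for the parameter `1 / (k - 1)` -/
theorem complete_fat {k : ℕ} (hk : 2 ≤ k) :
    IsFAT (⊤ : SimpleGraph (Fin k)) (id : Fin k → Fin k) (1 / ((k : ℝ) - 1)) := by
  have hk' : (2 : ℝ) ≤ k := by exact_mod_cast hk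
  have hk1 : (0 : ℝ) < (k : ℝ) - 1 := by linarith
  refine ⟨Function.surjective_id, by positivity, ?_, ?_⟩
  · rw [div_le_one hk1]
    linarith
  · intro v i
    constructor
    · intro hvi
      have h1 : count (⊤ : SimpleGraph (Fin k)) (id : Fin k → Fin k) v i = 1 := by
        unfold count
        have : {w | (⊤ : SimpleGraph (Fin k)).Adj v w ∧ id w = i} = {i} := by
          ext w
          simp only [top_adj, id, Set.mem_ofPred_eq, Set.mem_singleton_iff]
          constructor
          · exact fun h => h.2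
          · rintro rfl
            exact ⟨hvi, rfl⟩
        rw [this, Set.ncard_singleton]
      have h2 : deg (⊤ : SimpleGraph (Fin k)) v = k - 1 := by
        unfold deg
        have : (⊤ : SimpleGraph (Fin k)).neighborSet v = {v}ᶜ := by
          ext w
          simp [eq_comm]
        rw [this, Set.ncard_compl, Set.ncard_singleton, Nat.card_fin]
      rw [h1, h2, Nat.cast_sub (by omega)]
      push_cast
      field_simp
    · intro hvi
      have h1 : count (⊤ : SimpleGraph (Fin k)) (id : Fin k → Fin k) v i = 0 := by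
        unfold count
        rw [Set.ncard_eq_zero (Set.toFinite _)]
        ext w
        simp only [top_adj, id, Set.mem_ofPred_eq, Set.mem_empty_iff_false, iff_false, not_and]
        intro h h'
        exact h (hvi.trans h'.symm)
      rw [h1]
      have : (1 - ((k : ℝ) - 1) * (1 / ((k : ℝ) - 1))) = 0 := by
        field_simp
        ring
      rw [this]
      simp

/-- For every integer `k ≥ 2` and every rational `α` with `0 < α ≤ 1 / (k - 1)` there is a finite connected
graph with FAT chromatic number exactly `k` that has a FAT `k`-colouring with parameter `α`. -/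
theorem result (k : ℕ) (hk : 2 ≤ k) (α : ℚ) (hα : 0 < α) (hα' : α ≤ 1 / ((k : ℚ) - 1)) :
    ∃ (V : Type) (_ : Fintype V) (G : SimpleGraph V), G.Connected ∧ fatChromaticNumber G = k ∧
      ∃ c : V → Fin k, IsFAT G c (α : ℝ) := by
  have hk' : (2 : ℚ) ≤ k := by exact_mod_cast hk
  have hk1 : (0 : ℚ) < (k : ℚ) - 1 := by linarith
  -- numerator and denominator
  obtain ⟨p, q, hp, hq, hpq, hco⟩ : ∃ p q : ℕ, 1 ≤ p ∧ 1 ≤ q ∧ α = p / q ∧ Nat.Coprime p q := by
    refine ⟨α.num.toNat, α.den, ?_, α.pos, ?_, ?_⟩
    · have := Rat.num_pos.2 hα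
      omega
    · have h1 : (α.num.toNat : ℤ) = α.num := Int.toNat_of_nonneg (Rat.num_pos.2 hα).le
      have h2 : ((α.num.toNat : ℕ) : ℚ) = (α.num : ℚ) := by exact_mod_cast h1
      rw [h2]
      exact (Rat.num_div_den α).symm
    · have h1 : α.num.natAbs = α.num.toNat := by
        have := Rat.num_pos.2 hα
        omega
      rw [← h1]
      exact α.reduced
  have hq' : (0 : ℚ) < q := by exact_mod_cast hq
  have hle : (k - 1) * p ≤ q := by
    rw [hpq, div_le_div_iff₀ hq' hk1] at hα'
    have : (((k - 1) * p : ℕ) : ℚ) ≤ q := by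
      push_cast [Nat.cast_sub (show 1 ≤ k by omega)]
      linarith
    exact_mod_cast this
  obtain ⟨r, hr⟩ : ∃ r, q = r + (k - 1) * p := ⟨q - (k - 1) * p, by omega⟩
  rcases Nat.eq_zero_or_pos r with hr0 | hr0
  · -- `α = 1 / (k - 1)`
    have hα1 : (α : ℝ) = 1 / ((k : ℝ) - 1) := by
      have : α = 1 / ((k : ℚ) - 1) := by
        rw [hpq, hr, hr0]
        push_cast [Nat.cast_sub (show 1 ≤ k by omega)]
        have hp' : (p : ℚ) ≠ 0 := by
          have : p ≠ 0 := by omega
          exact_mod_cast this
        field_simp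
        ring
      rw [this]
      push_cast
      ring
    refine ⟨Fin k, inferInstance, ⊤, ?_, ?_, id, ?_⟩
    · have : Nonempty (Fin k) := ⟨⟨0, by omega⟩⟩
      exact SimpleGraph.connected_top
    · refine fatChromaticNumber_eq (complete_fat hk) fun m c α h => ?_
      have := Fintype.card_le_of_surjective c h.1
      rwa [Fintype.card_fin, Fintype.card_fin] at this
    · rw [hα1]
      exact complete_fat hk
  · have hcop : Nat.Coprime p r := by
      rw [hr] at hco
      exact (Nat.coprime_add_mul_right_right p r (k - 1)).1 hco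
    obtain ⟨n, a1, a2, a3, a4, tR, tP, hn, h1, h2, h3, h4, e1, e2, e3, e4, htR, htP⟩ :=
      exists_params hk hp hr0 hcop
    have hfat := cl_fat (k := k) hk hp hr0 (show 1 ≤ a1 by omega) h2 h3 h4 e1 e2 e3 e4
    refine ⟨Vt k p r n a1 a2 a3 a4, inferInstance, Gr k p r n a1 a2 a3 a4,
      Gr_connected hk hp hr0 hn (by omega) h2 h3 h4, ?_, cl k p r n a1 a2 a3 a4, ?_⟩
    · exact fatChromaticNumber_eq hfat fun m c α h =>
        Gr_le hk hp hr0 hn h1 h2 h3 h4 e1 e2 e3 e4 htR htP c h
    · have : (α : ℝ) = (p : ℝ) / ((r : ℝ) + ((k : ℝ) - 1) * p) := by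
        rw [hpq, hr]
        push_cast [Nat.cast_sub (show 1 ≤ k by omega)]
        ring
      rw [this]
      exact hfat

end Pool.Agent.Results.MP_2d49c6_co.Prescribed
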